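import Pool.Agent.Q2.PM.Stm

set_option autoImplicit false

namespace Pool.Agent.Q186.PM

open Subgroup Q2.TN Q2.PM

theorem normal_le_syl {G : Type} [Group G] [Finite G] {P N : Subgroup G} (hP : IsSyl 2 P)
    (hN : N.Normal) (h2 : IsPGroup 2 N) : N ≤ P := by
  have : Fact (Nat.Prime 2) := ⟨Nat.prime_two⟩
  have h := (hP.1.toSylow hP.2).is_maximal' (Q := N ⊔ P) (h2.to_sup_of_normal_left hP.1)
    (le_sup_right : P ≤ N ⊔ P)
  have h' : N ⊔ P = P := h
  rw [← h']
  exact le_sup_left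

theorem ext2 {G : Type} [Group G] [Finite G] (K : Subgroup G) (y : G) (hy : y ∉ K)
    (hy2 : y * y ∈ K) (hc : ∀ g ∈ K, y * g = g * y) :
    ∃ K' : Subgroup G, K ≤ K' ∧ y ∈ K' ∧ (∀ g ∈ K', g ∈ K ∨ ∃ h ∈ K, g = y * h) ∧
      Nat.card K' = 2 * Nat.card K := by
  classical
  let K' : Subgroup G :=
    { carrier := (K : Set G) ∪ (fun h => y * h) '' (K : Set G)
      one_mem' := Or.inl K.one_mem
      mul_mem' := by
        rintro a b (ha | ⟨h, hh, rfl⟩) (hb | ⟨h', hh', rfl⟩)
        · exact Or.inl (K.mul_mem ha hb)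
        · refine Or.inr ⟨a * h', K.mul_mem ha hh', ?_⟩
          show y * (a * h') = a * (y * h')
          rw [← mul_assoc, hc a ha, mul_assoc]
        · refine Or.inr ⟨h * b, K.mul_mem hh hb, ?_⟩
          show y * (h * b) = y * h * b
          rw [mul_assoc]
        · refine Or.inl ?_
          have : y * h * (y * h') = (y * y) * (h * h') := by
            rw [mul_assoc y h, ← mul_assoc h y h', ← hc h hh, mul_assoc, mul_assoc]
          show y * h * (y * h') ∈ K
          rw [this]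
          exact K.mul_mem hy2 (K.mul_mem hh hh')
      inv_mem' := by
        rintro a (ha | ⟨h, hh, rfl⟩)
        · exact Or.inl (K.inv_mem ha)
        · refine Or.inr ⟨(y * y)⁻¹ * h⁻¹, K.mul_mem (K.inv_mem hy2) (K.inv_mem hh), ?_⟩
          show y * ((y * y)⁻¹ * h⁻¹) = (y * h)⁻¹
          rw [hc h hh]
          group }
  refine ⟨K', fun g hg => Or.inl hg, Or.inr ⟨1, K.one_mem, mul_one y⟩, ?_, ?_⟩
  · rintro g (hg | ⟨h, hh, rfl⟩)
    · exact Or.inl hg
    · exact Or.inr ⟨h, hh, rfl⟩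
  · have h1 : Nat.card K' = Set.ncard ((K : Set G) ∪ (fun h => y * h) '' (K : Set G)) :=
      Nat.card_coe_set_eq _
    have h2 : Disjoint (K : Set G) ((fun h => y * h) '' (K : Set G)) := by
      rw [Set.disjoint_left]
      rintro _ hg ⟨h, hh, rfl⟩
      have := K.mul_mem hg (K.inv_mem hh)
      simp only [mul_inv_cancel_right] at this
      exact hy this
    rw [h1, Set.ncard_union_eq h2 (Set.toFinite _) (Set.toFinite _),
      Set.ncard_image_of_injective _ (mul_right_injective y)]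
    have h3 : Nat.card K = Set.ncard (K : Set G) := Nat.card_coe_set_eq _
    omega

theorem c9 (c1 : Q2.PM.S_C1) : Q2.PM.S_C9 := by
  intro k G _ _ P T L T₁ x hE hT hk hcT hL hTL hcL hab hexp hT₁ hcT₁ hPT₁ hxP hxL hx2 hxc
  have hLP : L ≤ P := normal_le_syl hE.syl hL (IsPGroup.of_card hcL)
  have hpow : 2 ^ k = 2 * 2 ^ (k - 1) := by
    rw [← pow_succ']
    congr 1
    omega
  by_contra hcon
  -- the element c
  obtain ⟨c, hcL', hcT', hxc2⟩ : ∃ c ∈ L, c ∉ T ∧ (x * x ∈ T₁ ∨ x * x = c) := by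
    by_cases h1 : x * x ∈ T
    · have h2 : x * x ∈ T₁ := by
        by_contra h3
        exact hcon ⟨h1, h3⟩
      have h3 : ¬ L ≤ T := by
        intro h4
        have h5 := Subgroup.card_le_of_le h4
        rw [hcL, hcT, hpow] at h5
        have : 0 < 2 ^ (k - 1) := by positivity
        omega
      obtain ⟨c, hc, hc'⟩ := SetLike.not_le_iff_exists.1 h3
      exact ⟨c, hc, hc', Or.inl h2⟩
    · exact ⟨x * x, hx2, h1, Or.inr rfl⟩
  have hT₁L : T₁ ≤ L := hT₁.trans hTL
  obtain ⟨K₁, hK1, hcK, hK1m, hK1c⟩ := ext2 T₁ c (fun h => hcT' (hT₁ h))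
    (by rw [hexp c hcL']; exact T₁.one_mem) (fun g hg => hab c hcL' g (hT₁L hg))
  have hK1L : K₁ ≤ L := by
    intro g hg
    rcases hK1m g hg with h | ⟨h, hh, rfl⟩
    · exact hT₁L h
    · exact L.mul_mem hcL' (hT₁L hh)
  have hxx : x * x ∈ K₁ := by
    rcases hxc2 with h | h
    · exact hK1 h
    · rw [h]; exact hcK
  obtain ⟨H, hKH, hxH, hHm, hHc⟩ := ext2 K₁ x (fun h => hxL (hK1L h)) hxx
    (fun g hg => hxc g (hK1L hg))
  have hHP : H ≤ P := by
    intro g hg
    rcases hHm g hg with h | ⟨h, hh, rfl⟩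
    · exact hLP (hK1L h)
    · exact P.mul_mem hxP (hLP (hK1L hh))
  have hHcard : Nat.card H = 2 ^ k := by
    rw [hHc, hK1c, ← hcT₁, hcT, hpow]
  have hHT : H ⊓ T = T₁ := by
    apply le_antisymm
    · rintro g ⟨hgH, hgT⟩
      rcases hHm g hgH with h | ⟨h, hh, rfl⟩
      · rcases hK1m g h with h' | ⟨h', hh', rfl⟩
        · exact h'
        · exfalso
          apply hcT'
          have := T.mul_mem hgT (T.inv_mem (hT₁ hh'))
          rwa [mul_inv_cancel_right] at this
      · exfalso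
        apply hxL
        have := L.mul_mem (hTL hgT) (L.inv_mem (hK1L hh))
        rwa [mul_inv_cancel_right] at this
    · exact le_inf (hK1.trans hKH) hT₁
  have h2 := c1 k G P T T₁ H hE hT hT₁ hcT₁ hPT₁ hHP hHcard hHT
  rw [hcT] at h2
  have h3 : 2 ^ 2 ≤ 2 ^ (k - 1) := Nat.pow_le_pow_right (by norm_num) (by omega)
  omega

end Pool.Agent.Q186.PM
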